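import Pool.Agent.Helper35.PI2.St

set_option autoImplicit false

/-! Module PV of project PI2. -/

namespace Helper2.PI2

open Helper35.PI Helper35.PI2

theorem cs_PV {N : ℕ} (P Q x y : EE N) :
    ((inner ℝ P x : ℝ) + (inner ℝ Q y : ℝ)) ^ 2 ≤
      (‖P‖ ^ 2 + 4 * ‖Q‖ ^ 2) * (‖x‖ ^ 2 + 1 / 4 * ‖y‖ ^ 2) := by
  have h1 := abs_real_inner_le_norm P x
  have h2 := abs_real_inner_le_norm Q y
  have h3 : |(inner ℝ P x : ℝ) + (inner ℝ Q y : ℝ)| ≤ ‖P‖ * ‖x‖ + ‖Q‖ * ‖y‖ :=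
    (abs_add_le _ _).trans (add_le_add h1 h2)
  have h4 : ((inner ℝ P x : ℝ) + (inner ℝ Q y : ℝ)) ^ 2 ≤ (‖P‖ * ‖x‖ + ‖Q‖ * ‖y‖) ^ 2 := by
    rw [← sq_abs]
    exact pow_le_pow_left₀ (abs_nonneg _) h3 2
  refine h4.trans ?_
  nlinarith [sq_nonneg (‖P‖ * ‖y‖ / 2 - 2 * ‖Q‖ * ‖x‖)]

theorem nb_PV {N : ℕ} (x y : EE N) (s t S T : ℝ) (hs : s ^ 2 ≤ S) (ht : t ^ 2 ≤ T) :
    ‖s • x - t • y‖ ^ 2 ≤ 2 * S * ‖x‖ ^ 2 + 2 * T * ‖y‖ ^ 2 := by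
  have h1 : ‖s • x - t • y‖ ^ 2 ≤ 2 * ‖s • x‖ ^ 2 + 2 * ‖t • y‖ ^ 2 := by
    have h := parallelogram_law_with_norm ℝ (s • x) (t • y)
    nlinarith [norm_nonneg (s • x + t • y), sq_nonneg ‖s • x + t • y‖]
  have h2 : ‖s • x‖ ^ 2 = s ^ 2 * ‖x‖ ^ 2 := by
    rw [norm_smul, mul_pow, Real.norm_eq_abs, sq_abs]
  have h3 : ‖t • y‖ ^ 2 = t ^ 2 * ‖y‖ ^ 2 := by
    rw [norm_smul, mul_pow, Real.norm_eq_abs, sq_abs]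
  rw [h2, h3] at h1
  nlinarith [mul_le_mul_of_nonneg_right hs (sq_nonneg ‖x‖),
    mul_le_mul_of_nonneg_right ht (sq_nonneg ‖y‖)]

theorem hPV : StPV := by
  intro N A T μ hA hT h0 h1
  have hA10 : A 1 0 = A 0 1 := hA 1 0
  have t010 : T 0 1 0 = T 0 0 1 := (hT.2 0 1 0)
  have t100 : T 1 0 0 = T 0 0 1 := by rw [hT.1 1 0 0, t010]
  have t101 : T 1 0 1 = T 0 1 1 := hT.1 1 0 1
  have t110 : T 1 1 0 = T 0 1 1 := by rw [hT.2 1 1 0, t101]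
  set P : EE N := A 0 0 - A 1 1 with hP
  set Q : EE N := A 0 1 with hQ
  set a : EE N := T 0 0 0 with ha
  set b : EE N := T 0 0 1 with hb
  set c : EE N := T 0 1 1 with hc
  set d : EE N := T 1 1 1 with hd
  have hv0 : vk μ A T 0 = (inner ℝ P ((2 : ℝ) • a - (2 + 4 * μ) • c) : ℝ) +
      (inner ℝ Q ((8 + 4 * μ) • b - (4 * μ) • d) : ℝ) := by
    simp only [vk, gX, gY, et, Hv, Fin.sum_univ_two, hA10, t010, t100, t101, t110, ← hQ, ← ha,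
      ← hb, ← hc, ← hd]
    rw [hP]
    simp only [inner_add_left, inner_add_right, inner_sub_left, inner_sub_right,
      real_inner_smul_right]
    ring
  have hv1 : vk μ A T 1 = (inner ℝ P ((2 + 4 * μ) • b - (2 : ℝ) • d) : ℝ) +
      (inner ℝ Q ((8 + 4 * μ) • c - (4 * μ) • a) : ℝ) := by
    simp only [vk, gX, gY, et, Hv, Fin.sum_univ_two, hA10, t010, t100, t101, t110, ← hQ, ← ha,
      ← hb, ← hc, ← hd]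
    rw [hP]
    simp only [inner_add_left, inner_add_right, inner_sub_left, inner_sub_right,
      real_inner_smul_right]
    ring
  have hθ : 2 * XX A - YY A = ‖P‖ ^ 2 + 4 * ‖Q‖ ^ 2 := by
    simp only [XX, YY, Hv, Fin.sum_univ_two, hA10, ← hQ]
    have e1 := norm_add_sq_real (A 0 0) (A 1 1)
    have e2 := norm_sub_sq_real (A 0 0) (A 1 1)
    rw [e1, hP, e2]
    ring
  have htq : tq T = ‖a‖ ^ 2 + 3 * ‖b‖ ^ 2 + 3 * ‖c‖ ^ 2 + ‖d‖ ^ 2 := by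
    simp only [tq, Fin.sum_univ_two, t010, t100, t101, t110, ← ha, ← hb, ← hc, ← hd]
    ring
  rw [Fin.sum_univ_two, hv0, hv1, hθ, htq]
  have c0 := cs_PV P Q ((2 : ℝ) • a - (2 + 4 * μ) • c) ((8 + 4 * μ) • b - (4 * μ) • d)
  have c1 := cs_PV P Q ((2 + 4 * μ) • b - (2 : ℝ) • d) ((8 + 4 * μ) • c - (4 * μ) • a)
  have n1 := nb_PV a c 2 (2 + 4 * μ) 4 36 (by norm_num) (by nlinarith)
  have n2 := nb_PV b d (8 + 4 * μ) (4 * μ) 144 16 (by nlinarith) (by nlinarith)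
  have n3 := nb_PV b d (2 + 4 * μ) 2 36 4 (by nlinarith) (by norm_num)
  have n4 := nb_PV c a (8 + 4 * μ) (4 * μ) 144 16 (by nlinarith) (by nlinarith)
  have hθ0 : 0 ≤ ‖P‖ ^ 2 + 4 * ‖Q‖ ^ 2 := by positivity
  have key : (‖(2 : ℝ) • a - (2 + 4 * μ) • c‖ ^ 2 +
      1 / 4 * ‖(8 + 4 * μ) • b - (4 * μ) • d‖ ^ 2) +
      (‖(2 + 4 * μ) • b - (2 : ℝ) • d‖ ^ 2 + 1 / 4 * ‖(8 + 4 * μ) • c - (4 * μ) • a‖ ^ 2) ≤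
      200 * (‖a‖ ^ 2 + 3 * ‖b‖ ^ 2 + 3 * ‖c‖ ^ 2 + ‖d‖ ^ 2) := by
    nlinarith [sq_nonneg ‖a‖, sq_nonneg ‖b‖, sq_nonneg ‖c‖, sq_nonneg ‖d‖]
  calc _ ≤ (‖P‖ ^ 2 + 4 * ‖Q‖ ^ 2) * ((‖(2 : ℝ) • a - (2 + 4 * μ) • c‖ ^ 2 +
      1 / 4 * ‖(8 + 4 * μ) • b - (4 * μ) • d‖ ^ 2) +
      (‖(2 + 4 * μ) • b - (2 : ℝ) • d‖ ^ 2 + 1 / 4 * ‖(8 + 4 * μ) • c - (4 * μ) • a‖ ^ 2)) := by
        rw [mul_add]
        exact add_le_add c0 c1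
    _ ≤ (‖P‖ ^ 2 + 4 * ‖Q‖ ^ 2) *
        (200 * (‖a‖ ^ 2 + 3 * ‖b‖ ^ 2 + 3 * ‖c‖ ^ 2 + ‖d‖ ^ 2)) :=
        mul_le_mul_of_nonneg_left key hθ0
    _ = _ := by ring

end Helper2.PI2
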