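import Pool.Agent.Helper35.PI2.St
import Pool.Agent.Helper35.PI.St3

set_option autoImplicit false

/-! Module PW of project PI2. -/

namespace Helper2.PI2

open Helper35.PI Helper35.PI2

theorem hPW (hPE : StPE) (hPR : StPR) (hPV : StPV) (hT3 : StT3) : StPW := by
  intro c₀ hc₀
  obtain ⟨μ, δ, hμ0, hμ1, hδ, hR⟩ := hPR c₀ hc₀
  refine ⟨μ, δ, 4 / 3 * (1 - μ), 200, hδ, by linarith, by norm_num, ?_⟩
  intro N A T hA hT hXY
  have hθ := (hPE N A μ hA (A 0 0 - A 1 1) ((2 : ℝ) • A 0 1) (Hv A) rfl rfl rfl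
    (2 * XX A - YY A) (YY A) rfl rfl).1
  have hθ0 : 0 ≤ 2 * XX A - YY A := by
    rw [hθ]
    positivity
  have hY0 : 0 ≤ YY A := by
    unfold YY
    positivity
  have hsq : Real.sqrt 6 ≤ 3 := by
    rw [show (3 : ℝ) = Real.sqrt 9 by
      rw [show (9 : ℝ) = 3 ^ 2 by norm_num, Real.sqrt_sq (by norm_num)]]
    exact Real.sqrt_le_sqrt (by norm_num)
  have hc1 : c₀ ≤ 1 := by
    have : (15 + Real.sqrt 6) / 24 ≤ 1 := by linarith
    linarith
  refine ⟨hθ0, by nlinarith, ?_, hPV N A T μ hA hT hμ0.le hμ1.le⟩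
  have h1 := hR N A hA hXY μ le_rfl hμ1.le
  have h2 := hT3 2 N T hT
  have h3 : eq2 T ≤ 4 / 3 * tq T := by
    have e : (3 : ℝ) / (((2 : ℕ) : ℝ) + 2) = 3 / 4 := by norm_num
    rw [e] at h2
    unfold eq2 tq
    linarith
  have hX' : hX A T = -2 * tq T + 2 * Sq A := rfl
  have hY' : hY A T = -2 * eq2 T + 2 * ZZ A := rfl
  rw [hX', hY']
  nlinarith [mul_le_mul_of_nonneg_left h3 (by linarith : (0 : ℝ) ≤ 2 + 4 * μ)]

end Helper2.PI2
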